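import Pool.Agent.Helper58.PB.StM

/-! Project PB, module POS (positivity of the main term). -/

set_option autoImplicit false

namespace Pool.Agent.Helper48.PB

open Finset ArithmeticFunction
open Pool.Agent.Helper58.PB
open Pool.Agent.Helper48.BK (ex th Sx Apx rr win AdN Admissible Solv Cl thd)
open Pool.Agent.Helper23.GK (cR)
open Pool.Agent.Helper23.MV (PCh PS ZF ZS mwt OKb ta Sc mm)

private lemma swap_POS (S : Finset PCh) (A₁ A₂ A₃ : PCh → ℂ) (W : PCh → ℕ → ℂ) (a b c M : ℕ) (d : ℤ) :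
    ∑ c₁ ∈ S, ∑ c₂ ∈ S, ∑ c₃ ∈ S, A₁ c₁ * A₂ c₂ * A₃ c₃ *
      En a b c d M (fun u v w => W c₁ u * W c₂ v * W c₃ w) =
    (1 / (M : ℂ) ^ 2) * ∑ u ∈ Cl a b c d M,
      (∑ e ∈ S, W e u.1 * A₁ e) * (∑ e ∈ S, W e u.2.1 * A₂ e) * (∑ e ∈ S, W e u.2.2 * A₃ e) := by
  have h1 : ∀ u : ℕ × ℕ × ℕ,
      (∑ e ∈ S, W e u.1 * A₁ e) * (∑ e ∈ S, W e u.2.1 * A₂ e) * (∑ e ∈ S, W e u.2.2 * A₃ e) =
      ∑ c₁ ∈ S, ∑ c₂ ∈ S, ∑ c₃ ∈ S, A₁ c₁ * A₂ c₂ * A₃ c₃ *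
        (W c₁ u.1 * W c₂ u.2.1 * W c₃ u.2.2) := by
    intro u
    rw [Finset.sum_mul_sum, Finset.sum_mul]
    refine Finset.sum_congr rfl fun c₁ _ => ?_
    rw [Finset.sum_mul]
    refine Finset.sum_congr rfl fun c₂ _ => ?_
    rw [Finset.mul_sum]
    refine Finset.sum_congr rfl fun c₃ _ => ?_
    ring
  symm
  rw [Finset.sum_congr rfl fun (u : ℕ × ℕ × ℕ) (_ : u ∈ Cl a b c d M) => h1 u, Finset.sum_comm,
    Finset.mul_sum]
  refine Finset.sum_congr rfl fun c₁ _ => ?_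
  rw [Finset.sum_comm, Finset.mul_sum]
  refine Finset.sum_congr rfl fun c₂ _ => ?_
  rw [Finset.sum_comm, Finset.mul_sum]
  refine Finset.sum_congr rfl fun c₃ _ => ?_
  unfold En
  rw [← Finset.mul_sum]
  ring

private lemma notdvd_POS {Q n : ℕ} {P : ℝ} (hPQ : P ≤ Q) (h : Nat.Coprime n (Pi0 Q)) (p : ℕ)
    (hp : p.Prime) (hpP : (p : ℝ) ≤ P) : ¬ p ∣ n := by
  intro hd
  have hpQ : p ≤ Q := by exact_mod_cast le_trans hpP hPQ
  have h2 : p ∣ Pi0 Q := by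
    unfold Pi0
    exact Finset.dvd_prod_of_mem (fun p => p)
      (Finset.mem_filter.2 ⟨Finset.mem_range.2 (Nat.lt_succ_of_le hpQ), hp⟩)
  have h3 : p ∣ 1 := by
    rw [← Nat.Coprime.gcd_eq_one h]
    exact Nat.dvd_gcd hd h2
  exact hp.one_lt.ne' (Nat.dvd_one.1 h3)

private lemma V_nonneg_POS (Q : ℕ) :
    0 ≤ (∏ p ∈ (range (Q + 1)).filter Nat.Prime, (p : ℝ) / (p - 1) : ℝ) := by
  refine Finset.prod_nonneg fun p hp => ?_
  have hp2 := (Finset.mem_filter.1 hp).2.two_le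
  have : (2 : ℝ) ≤ p := by exact_mod_cast hp2
  apply div_nonneg <;> linarith

/-- POS -/
theorem hPos : StDen → StPos := by
  intro hDen P t a b c Q d A₁ A₂ A₃ hPQ ht ha hb hc hAd hF
  set M : ℕ := Nat.factorial Q with hM
  set V : ℝ := (∏ p ∈ (range (Q + 1)).filter Nat.Prime, (p : ℝ) / (p - 1) : ℝ) with hV
  have hV0 : 0 ≤ V := V_nonneg_POS Q
  have hD := hDen a b c Q d ha hb hc hAd
  rw [← hM, ← hV] at hD
  rw [swap_POS]
  -- the value of a single factor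
  have hfac : ∀ (A : PCh → ℂ) (n : ℕ), Nat.Coprime n (Pi0 Q) →
      ∑ e ∈ PS P, wi Q e n * A e = (V : ℂ) * ∑ e ∈ PS P, (starRingEnd ℂ) (e.ev n) * A e := by
    intro A n hn
    rw [Finset.mul_sum]
    refine Finset.sum_congr rfl fun e _ => ?_
    unfold wi
    rw [if_pos hn, ← hV]
    ring
  have hfac0 : ∀ (A : PCh → ℂ) (n : ℕ), ¬ Nat.Coprime n (Pi0 Q) →
      ∑ e ∈ PS P, wi Q e n * A e = 0 := by
    intro A n hn
    refine Finset.sum_eq_zero fun e _ => ?_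
    unfold wi
    rw [if_neg hn, zero_mul]
  have hM0 : (0 : ℝ) ≤ 1 / (M : ℝ) ^ 2 := by positivity
  have hcast : (1 / (M : ℂ) ^ 2) = (((1 / (M : ℝ) ^ 2 : ℝ)) : ℂ) := by push_cast; ring
  -- lower bound term by term
  have hterm : ∀ u ∈ Cl a b c d M,
      t ^ 3 * V ^ 3 * (if Nat.Coprime u.1 (Pi0 Q) ∧ Nat.Coprime u.2.1 (Pi0 Q) ∧
        Nat.Coprime u.2.2 (Pi0 Q) then (1 : ℂ) else 0).re ≤
      ((∑ e ∈ PS P, wi Q e u.1 * A₁ e) * (∑ e ∈ PS P, wi Q e u.2.1 * A₂ e) *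
        (∑ e ∈ PS P, wi Q e u.2.2 * A₃ e)).re := by
    intro u _
    by_cases h1 : Nat.Coprime u.1 (Pi0 Q)
    · by_cases h2 : Nat.Coprime u.2.1 (Pi0 Q)
      · by_cases h3 : Nat.Coprime u.2.2 (Pi0 Q)
        · rw [if_pos ⟨h1, h2, h3⟩, hfac A₁ _ h1, hfac A₂ _ h2, hfac A₃ _ h3]
          obtain ⟨⟨r1, i1⟩, -, -⟩ := hF u.1 (notdvd_POS hPQ h1)
          obtain ⟨-, ⟨r2, i2⟩, -⟩ := hF u.2.1 (notdvd_POS hPQ h2)
          obtain ⟨-, -, ⟨r3, i3⟩⟩ := hF u.2.2 (notdvd_POS hPQ h3)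
          generalize (∑ e ∈ PS P, (starRingEnd ℂ) (e.ev u.1) * A₁ e) = x1 at r1 i1 ⊢
          generalize (∑ e ∈ PS P, (starRingEnd ℂ) (e.ev u.2.1) * A₂ e) = x2 at r2 i2 ⊢
          generalize (∑ e ∈ PS P, (starRingEnd ℂ) (e.ev u.2.2) * A₃ e) = x3 at r3 i3 ⊢
          have e1 : x1 = (x1.re : ℂ) := by apply Complex.ext <;> simp [i1]
          have e2 : x2 = (x2.re : ℂ) := by apply Complex.ext <;> simp [i2]
          have e3 : x3 = (x3.re : ℂ) := by apply Complex.ext <;> simp [i3]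
          rw [e1, e2, e3]
          have e4 : ((V : ℂ) * (x1.re : ℂ) * ((V : ℂ) * (x2.re : ℂ)) * ((V : ℂ) * (x3.re : ℂ))) =
              ((V ^ 3 * (x1.re * x2.re * x3.re) : ℝ) : ℂ) := by push_cast; ring
          rw [e4, Complex.ofReal_re, Complex.one_re, mul_one]
          have e5 : t ^ 3 ≤ x1.re * x2.re * x3.re := by
            have : t * t ≤ x1.re * x2.re := mul_le_mul r1 r2 ht (le_trans ht r1)
            calc t ^ 3 = t * t * t := by ring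
              _ ≤ x1.re * x2.re * x3.re :=
                mul_le_mul this r3 ht (le_trans (mul_nonneg ht ht) this)
          calc t ^ 3 * V ^ 3 = V ^ 3 * t ^ 3 := by ring
            _ ≤ _ := mul_le_mul_of_nonneg_left e5 (pow_nonneg hV0 3)
        · rw [if_neg (fun h => h3 h.2.2), hfac0 A₃ _ h3]; simp
      · rw [if_neg (fun h => h2 h.2.1), hfac0 A₂ _ h2]; simp
    · rw [if_neg (fun h => h1 h.1), hfac0 A₁ _ h1]; simp
  rw [hcast, Complex.re_ofReal_mul, Complex.re_sum]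
  unfold En at hD
  rw [hcast, Complex.re_ofReal_mul, Complex.re_sum] at hD
  calc t ^ 3 = t ^ 3 * 1 := by ring
    _ ≤ t ^ 3 * (V ^ 3 * (1 / (M : ℝ) ^ 2 * ∑ u ∈ Cl a b c d M,
        (if Nat.Coprime u.1 (Pi0 Q) ∧ Nat.Coprime u.2.1 (Pi0 Q) ∧
        Nat.Coprime u.2.2 (Pi0 Q) then (1 : ℂ) else 0).re)) :=
        mul_le_mul_of_nonneg_left hD (pow_nonneg ht 3)
    _ = 1 / (M : ℝ) ^ 2 * ∑ u ∈ Cl a b c d M, (t ^ 3 * V ^ 3 *
        (if Nat.Coprime u.1 (Pi0 Q) ∧ Nat.Coprime u.2.1 (Pi0 Q) ∧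
        Nat.Coprime u.2.2 (Pi0 Q) then (1 : ℂ) else 0).re) := by
        rw [← Finset.mul_sum]; ring
    _ ≤ _ := mul_le_mul_of_nonneg_left (Finset.sum_le_sum hterm) hM0

end Pool.Agent.Helper48.PB
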